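import Pool.Agent.TH60.LR.Defs

set_option autoImplicit false

namespace Pool.Agent.TH247.LR14

open Pool.Agent.TH60.LR

/-- choosing equivariantly on a free `G`-set -/
theorem equivChoice {G E Z : Type} [Group G] [MulAction G E] [MulAction G Z]
    (free : ∀ (n : G) (e : E), n • e = e → n = 1) (P : E → Z → Prop) (hP : ∀ e, ∃ z, P e z)
    (hPs : ∀ (g : G) (e : E) (z : Z), P e z → P (g • e) (g • z)) :
    ∃ c : E → Z, (∀ (g : G) (e : E), c (g • e) = g • c e) ∧ ∀ e, P e (c e) := by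
  classical
  set r : E → E := fun e => (Quotient.mk (MulAction.orbitRel G E) e).out with hr
  have hn : ∀ e : E, ∃ n : G, n • r e = e := by
    intro e
    have h1 : (Quotient.mk (MulAction.orbitRel G E) e) =
        Quotient.mk (MulAction.orbitRel G E) (r e) := by
      rw [hr]
      exact (Quotient.out_eq _).symm
    exact MulAction.orbitRel_apply.mp (Quotient.exact h1)
  choose n hn using hn
  choose z hz using hP
  have hrg : ∀ (g : G) (e : E), r (g • e) = r e := by
    intro g e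
    rw [hr]
    have : (Quotient.mk (MulAction.orbitRel G E) (g • e)) =
        Quotient.mk (MulAction.orbitRel G E) e :=
      Quotient.sound (MulAction.orbitRel_apply.mpr ⟨g, rfl⟩)
    simp only [this]
  have hng : ∀ (g : G) (e : E), n (g • e) = g * n e := by
    intro g e
    have h1 : n (g • e) • r e = (g * n e) • r e := by
      rw [mul_smul, hn e, ← hrg g e, hn (g • e)]
    have h2 : ((g * n e)⁻¹ * n (g • e)) • r e = r e := by
      rw [mul_smul, h1, inv_smul_smul]
    have h3 := free _ _ h2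
    rw [inv_mul_eq_one] at h3
    exact h3.symm
  refine ⟨fun e => n e • z (r e), ?_, ?_⟩
  · intro g e
    show n (g • e) • z (r (g • e)) = g • n e • z (r e)
    rw [hrg, hng, mul_smul]
  · intro e
    have := hPs (n e) (r e) (z (r e)) (hz (r e))
    rwa [hn e] at this

/-- constructing split data -/
theorem mkSplit {N V : Type} [Group N] [MulAction N V] (E : Type) [MulAction N E] (o t : E → V)
    (D : V → V → E →₀ ℤ) (free : ∀ (n : N) (e : E), n • e = e → n = 1)
    (o_smul : ∀ (n : N) (e : E), o (n • e) = n • o e)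
    (t_smul : ∀ (n : N) (e : E), t (n • e) = n • t e)
    (D_add : ∀ u v w : V, D u v + D v w = D u w)
    (D_smul : ∀ (n : N) (u v : V), D (n • u) (n • v) = Finsupp.mapDomain (n • ·) (D u v))
    (bd : ∀ u v : V, Finsupp.mapDomain t (D u v) - Finsupp.mapDomain o (D u v) =
      Finsupp.single u (1 : ℤ) - Finsupp.single v (1 : ℤ)) : HasSplit N V := by
  refine ⟨⟨E, inferInstance, o, t, D, free, o_smul, t_smul, D_add, ?_, ?_⟩⟩
  · intro n u v e
    rw [D_smul, Finsupp.mapDomain_apply (MulAction.injective n)]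
  · intro u v
    rw [← bd, Finsupp.sum_sub]
    rfl

theorem bd' {N V : Type} [Group N] [MulAction N V] (d : SplitData N V) (u v : V) :
    Finsupp.mapDomain d.t (d.D u v) - Finsupp.mapDomain d.o (d.D u v) =
      Finsupp.single u (1 : ℤ) - Finsupp.single v (1 : ℤ) := by
  rw [← d.bd, Finsupp.sum_sub]
  rfl

theorem D_smul' {N V : Type} [Group N] [MulAction N V] (d : SplitData N V) (n : N) (u v : V) :
    d.D (n • u) (n • v) = Finsupp.mapDomain (n • ·) (d.D u v) := by
  ext e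
  have h : e = n • (n⁻¹ • e) := by rw [smul_inv_smul]
  conv_lhs => rw [h]
  conv_rhs => rw [h]
  rw [d.D_smul, Finsupp.mapDomain_apply (MulAction.injective n)]

/-- retracts -/
theorem split_retract {G W V' : Type} [Group G] [MulAction G W] [MulAction G V']
    (h : HasSplit G W) (i : V' → W) (ρ : W → V') (hi : ∀ (g : G) (v : V'), i (g • v) = g • i v)
    (hρ : ∀ (g : G) (w : W), ρ (g • w) = g • ρ w) (hρi : ∀ v, ρ (i v) = v) :
    HasSplit G V' := by
  obtain ⟨d⟩ := h
  refine mkSplit d.E (fun e => ρ (d.o e)) (fun e => ρ (d.t e)) (fun u v => d.D (i u) (i v))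
    d.free ?_ ?_ ?_ ?_ ?_
  · intro n e
    show ρ (d.o (n • e)) = n • ρ (d.o e)
    rw [d.o_smul, hρ]
  · intro n e
    show ρ (d.t (n • e)) = n • ρ (d.t e)
    rw [d.t_smul, hρ]
  · intro u v w
    exact d.D_add _ _ _
  · intro n u v
    show d.D (i (n • u)) (i (n • v)) = _
    rw [hi, hi, D_smul' d]
  · intro u v
    have h1 : ∀ c : d.E →₀ ℤ, Finsupp.mapDomain (fun e => ρ (d.t e)) c =
        Finsupp.mapDomain ρ (Finsupp.mapDomain d.t c) := fun c => Finsupp.mapDomain_comp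
    have h2 : ∀ c : d.E →₀ ℤ, Finsupp.mapDomain (fun e => ρ (d.o e)) c =
        Finsupp.mapDomain ρ (Finsupp.mapDomain d.o c) := fun c => Finsupp.mapDomain_comp
    rw [h1, h2]
    have h3 := congrArg (Finsupp.lmapDomain ℤ ℤ ρ) (bd' d (i u) (i v))
    rw [map_sub, map_sub] at h3
    simp only [Finsupp.lmapDomain_apply, Finsupp.mapDomain_single, hρi] at h3
    exact h3

/-- extension: `W → V` with split kernel -/
theorem split_ext {G W V F : Type} [Group G] [MulAction G W] [MulAction G V] [MulAction G F]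
    (hV : HasSplit G V) (p : W → V) (hp : ∀ (g : G) (w : W), p (g • w) = g • p w)
    (hps : Function.Surjective p) (free : ∀ (n : G) (e : F), n • e = e → n = 1)
    (oF tF : F → W) (hoF : ∀ (g : G) (f : F), oF (g • f) = g • oF f)
    (htF : ∀ (g : G) (f : F), tF (g • f) = g • tF f) (κ : W → W → F →₀ ℤ)
    (κ_add : ∀ x y w : W, p x = p y → p y = p w → κ x y + κ y w = κ x w)
    (κ_smul : ∀ (g : G) (x y : W), p x = p y →
      κ (g • x) (g • y) = Finsupp.mapDomain (g • ·) (κ x y))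
    (κ_bd : ∀ x y : W, p x = p y → Finsupp.mapDomain tF (κ x y) - Finsupp.mapDomain oF (κ x y) =
      Finsupp.single x (1 : ℤ) - Finsupp.single y (1 : ℤ)) : HasSplit G W := by
  classical
  obtain ⟨d⟩ := hV
  obtain ⟨σ, hσ1, hσ2⟩ := equivChoice (Z := W) d.free (fun e w => p w = d.o e)
    (fun e => hps _) (fun g e w h => by show p (g • w) = d.o (g • e); rw [hp, d.o_smul, h])
  obtain ⟨τ, hτ1, hτ2⟩ := equivChoice (Z := W) d.free (fun e w => p w = d.t e)
    (fun e => hps _) (fun g e w h => by show p (g • w) = d.t (g • e); rw [hp, d.t_smul, h])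
  obtain ⟨c, hc⟩ := hps.hasRightInverse
  set S : (W →₀ ℤ) →ₗ[ℤ] (F →₀ ℤ) := Finsupp.linearCombination ℤ (fun x => κ x (c (p x))) with hS
  have hcp : ∀ x, p x = p (c (p x)) := fun x => (hc (p x)).symm
  have hA : ∀ z : W →₀ ℤ, Finsupp.mapDomain tF (S z) - Finsupp.mapDomain oF (S z) =
      z - Finsupp.mapDomain c (Finsupp.mapDomain p z) := by
    have h1 : ((Finsupp.lmapDomain ℤ ℤ tF - Finsupp.lmapDomain ℤ ℤ oF) ∘ₗ S :
        (W →₀ ℤ) →ₗ[ℤ] (W →₀ ℤ)) =
        LinearMap.id - Finsupp.lmapDomain ℤ ℤ c ∘ₗ Finsupp.lmapDomain ℤ ℤ p := by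
      apply Finsupp.lhom_ext
      intro x a
      simp only [LinearMap.comp_apply, LinearMap.sub_apply, LinearMap.id_apply,
        Finsupp.lmapDomain_apply, Finsupp.mapDomain_single, hS,
        Finsupp.linearCombination_single]
      have h2 := κ_bd x (c (p x)) (hcp x)
      rw [Finsupp.mapDomain_smul, Finsupp.mapDomain_smul, ← smul_sub, h2, smul_sub,
        Finsupp.smul_single, Finsupp.smul_single]
      simp
    intro z
    have := LinearMap.congr_fun h1 z
    simpa using this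
  have hB : ∀ (g : G) (z : W →₀ ℤ), Finsupp.mapDomain p z = 0 →
      S (Finsupp.mapDomain (g • ·) z) = Finsupp.mapDomain (g • ·) (S z) := by
    intro g
    have h1 : (S ∘ₗ Finsupp.lmapDomain ℤ ℤ (fun x : W => g • x) -
        Finsupp.lmapDomain ℤ ℤ (fun x : F => g • x) ∘ₗ S : (W →₀ ℤ) →ₗ[ℤ] (F →₀ ℤ)) =
        (Finsupp.linearCombination ℤ (fun v : V => κ (g • c v) (c (g • v)))) ∘ₗ
          Finsupp.lmapDomain ℤ ℤ p := by
      apply Finsupp.lhom_ext
      intro x a
      simp only [LinearMap.comp_apply, LinearMap.sub_apply,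
        Finsupp.lmapDomain_apply, Finsupp.mapDomain_single, hS,
        Finsupp.linearCombination_single]
      rw [Finsupp.mapDomain_smul, ← smul_sub]
      congr 1
      have h2 := κ_smul g x (c (p x)) (hcp x)
      rw [← h2, hp]
      have h3 := κ_add (g • x) (g • c (p x)) (c (g • p x))
        (by rw [hp, hp, ← hcp]) (by rw [hp, hc, hc])
      rw [← h3]
      abel
    intro z hz
    have h2 := LinearMap.congr_fun h1 z
    simp only [LinearMap.comp_apply, LinearMap.sub_apply, Finsupp.lmapDomain_apply, hz,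
      map_zero] at h2
    exact sub_eq_zero.mp h2
  set bt : (d.E →₀ ℤ) →ₗ[ℤ] (W →₀ ℤ) := Finsupp.lmapDomain ℤ ℤ τ - Finsupp.lmapDomain ℤ ℤ σ
    with hbt
  set zz : W → W → (W →₀ ℤ) := fun x y =>
    Finsupp.single x 1 - Finsupp.single y 1 - bt (d.D (p x) (p y)) with hzz
  have hpzz : ∀ x y, Finsupp.mapDomain p (zz x y) = 0 := by
    intro x y
    have h1 : ∀ e, Finsupp.mapDomain p (bt e) =
        Finsupp.mapDomain d.t e - Finsupp.mapDomain d.o e := by
      intro e
      have h2 : Finsupp.mapDomain p (bt e) = Finsupp.lmapDomain ℤ ℤ p (bt e) := rfl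
      rw [h2, hbt, LinearMap.sub_apply, map_sub]
      simp only [Finsupp.lmapDomain_apply]
      rw [← Finsupp.mapDomain_comp, ← Finsupp.mapDomain_comp]
      congr 2
      · funext e; exact hτ2 e
      · funext e; exact hσ2 e
    have h3 : Finsupp.mapDomain p (zz x y) = Finsupp.lmapDomain ℤ ℤ p (zz x y) := rfl
    rw [h3, hzz]
    simp only [map_sub]
    simp only [Finsupp.lmapDomain_apply, Finsupp.mapDomain_single]
    rw [h1, bd' d]
    abel
  have hzadd : ∀ x y w, zz x y + zz y w = zz x w := by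
    intro x y w
    simp only [hzz]
    rw [← d.D_add (p x) (p y) (p w), map_add]
    abel
  have hzsmul : ∀ (g : G) x y, zz (g • x) (g • y) = Finsupp.mapDomain (g • ·) (zz x y) := by
    intro g x y
    have h1 : ∀ e, Finsupp.mapDomain (g • ·) (bt e) = bt (Finsupp.mapDomain (g • ·) e) := by
      intro e
      have h2 : Finsupp.mapDomain (g • ·) (bt e) = Finsupp.lmapDomain ℤ ℤ (fun x : W => g • x) (bt e)
        := rfl
      rw [h2, hbt, LinearMap.sub_apply, LinearMap.sub_apply, map_sub]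
      simp only [Finsupp.lmapDomain_apply]
      rw [← Finsupp.mapDomain_comp, ← Finsupp.mapDomain_comp, ← Finsupp.mapDomain_comp,
        ← Finsupp.mapDomain_comp]
      congr 2
      · funext e; exact (hτ1 g e).symm
      · funext e; exact (hσ1 g e).symm
    have h3 : Finsupp.mapDomain (g • ·) (zz x y) =
      Finsupp.lmapDomain ℤ ℤ (fun x : W => g • x) (zz x y) := rfl
    rw [h3]
    simp only [hzz, map_sub]
    simp only [Finsupp.lmapDomain_apply, Finsupp.mapDomain_single]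
    rw [h1, hp, hp, D_smul' d]
  refine mkSplit (d.E ⊕ F) (Sum.elim σ oF) (Sum.elim τ tF)
    (fun x y => Finsupp.mapDomain Sum.inl (d.D (p x) (p y)) +
      Finsupp.mapDomain Sum.inr (S (zz x y))) ?_ ?_ ?_ ?_ ?_ ?_
  · rintro n (e | f) h
    · exact d.free n e (Sum.inl_injective h)
    · exact free n f (Sum.inr_injective h)
  · rintro n (e | f)
    · exact hσ1 n e
    · exact hoF n f
  · rintro n (e | f)
    · exact hτ1 n e
    · exact htF n f
  · intro x y w
    rw [← d.D_add (p x) (p y) (p w), ← hzadd x y w, map_add, Finsupp.mapDomain_add,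
      Finsupp.mapDomain_add]
    abel
  · intro n x y
    rw [Finsupp.mapDomain_add, hzsmul, hB n _ (hpzz x y), hp, hp, D_smul' d,
      ← Finsupp.mapDomain_comp, ← Finsupp.mapDomain_comp, ← Finsupp.mapDomain_comp,
      ← Finsupp.mapDomain_comp]
    rfl
  · intro x y
    rw [Finsupp.mapDomain_add, Finsupp.mapDomain_add, ← Finsupp.mapDomain_comp,
      ← Finsupp.mapDomain_comp, ← Finsupp.mapDomain_comp, ← Finsupp.mapDomain_comp]
    have h1 := hA (zz x y)
    rw [hpzz, Finsupp.mapDomain_zero, sub_zero] at h1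
    have h2 : Finsupp.mapDomain τ (d.D (p x) (p y)) - Finsupp.mapDomain σ (d.D (p x) (p y)) =
        bt (d.D (p x) (p y)) := by
      rw [hbt, LinearMap.sub_apply]
      rfl
    have h3 : Finsupp.mapDomain (Sum.elim τ tF ∘ Sum.inl) (d.D (p x) (p y)) =
      Finsupp.mapDomain τ (d.D (p x) (p y)) := rfl
    have h4 : Finsupp.mapDomain (Sum.elim σ oF ∘ Sum.inl) (d.D (p x) (p y)) =
      Finsupp.mapDomain σ (d.D (p x) (p y)) := rfl
    have h5 : Finsupp.mapDomain (Sum.elim τ tF ∘ Sum.inr) (S (zz x y)) =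
      Finsupp.mapDomain tF (S (zz x y)) := rfl
    have h6 : Finsupp.mapDomain (Sum.elim σ oF ∘ Sum.inr) (S (zz x y)) =
      Finsupp.mapDomain oF (S (zz x y)) := rfl
    rw [h3, h4, h5, h6]
    have h7 : zz x y = Finsupp.single x 1 - Finsupp.single y 1 - bt (d.D (p x) (p y)) := rfl
    rw [h7] at h1
    rw [h7]
    rw [add_sub_add_comm, h1, ← h2]
    abel

/-- `G` acting on the first factor of `G × S` -/
@[ext] structure Ind (G S : Type) where
  /-- group component -/
  g : G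
  /-- label -/
  s : S

instance instInd (G S : Type) [Group G] : MulAction G (Ind G S) where
  smul g x := ⟨g * x.1, x.2⟩
  one_smul _ := Ind.ext (one_mul _) rfl
  mul_smul _ _ _ := Ind.ext (mul_assoc _ _ _) rfl

theorem ind_free {G S : Type} [Group G] (g : G) (x : Ind G S) (h : g • x = x) : g = 1 := by
  have h1 : g * x.1 = x.1 := congrArg Ind.g h
  exact mul_eq_right.mp h1

section K

variable {G : Type} [Group G] (L : Subgroup G) (d : SplitData L L) (lam : d.E → Ind L d.E)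
  (hlam1 : ∀ (g : L) (e : d.E), lam (g • e) = g • lam e) (hlam2 : ∀ e, (lam e).1 • (lam e).2 = e)
  {Y : Type} (j : d.E → Y)

/-- the relative chain between two points of a coset -/
noncomputable def K (m m' : G) (h : m'⁻¹ * m ∈ L) : Ind G Y →₀ ℤ :=
  Finsupp.mapDomain (fun e => (⟨m' * ((lam e).1 : G), j (lam e).2⟩ : Ind G Y))
    (d.D ⟨m'⁻¹ * m, h⟩ 1)

include hlam1 in
theorem K_add (m m' m'' : G) (h1 : m'⁻¹ * m ∈ L) (h2 : m''⁻¹ * m' ∈ L) (h3 : m''⁻¹ * m ∈ L) :
    K L d lam j m m' h1 + K L d lam j m' m'' h2 = K L d lam j m m'' h3 := by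
  unfold K
  have h4 : d.D ⟨m''⁻¹ * m, h3⟩ ⟨m''⁻¹ * m', h2⟩ =
      Finsupp.mapDomain ((⟨m''⁻¹ * m', h2⟩ : L) • ·) (d.D ⟨m'⁻¹ * m, h1⟩ 1) := by
    rw [← D_smul' d]
    congr 1
    · apply Subtype.ext
      show m''⁻¹ * m = m''⁻¹ * m' * (m'⁻¹ * m)
      group
    · show _ = _ * _
      rw [mul_one]
  rw [← d.D_add ⟨m''⁻¹ * m, h3⟩ ⟨m''⁻¹ * m', h2⟩ 1, Finsupp.mapDomain_add, h4,
    ← Finsupp.mapDomain_comp]
  congr 2
  funext e
  show _ = (⟨m'' * ((lam ((⟨m''⁻¹ * m', h2⟩ : L) • e)).1 : G),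
    j (lam ((⟨m''⁻¹ * m', h2⟩ : L) • e)).2⟩ : Ind G Y)
  rw [hlam1]
  show _ = (⟨m'' * (m''⁻¹ * m' * ((lam e).1 : G)), j (lam e).2⟩ : Ind G Y)
  congr 1
  group

theorem K_smul (g m m' : G) (h1 : m'⁻¹ * m ∈ L) (h2 : (g * m')⁻¹ * (g * m) ∈ L) :
    K L d lam j (g * m) (g * m') h2 = Finsupp.mapDomain (g • ·) (K L d lam j m m' h1) := by
  unfold K
  rw [← Finsupp.mapDomain_comp]
  have h3 : (⟨(g * m')⁻¹ * (g * m), h2⟩ : L) = ⟨m'⁻¹ * m, h1⟩ := by
    apply Subtype.ext
    show (g * m')⁻¹ * (g * m) = m'⁻¹ * m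
    group
  rw [h3]
  congr 1
  funext e
  show _ = (⟨g * (m' * ((lam e).1 : G)), j (lam e).2⟩ : Ind G Y)
  rw [mul_assoc]

include hlam2 in
theorem K_bd {W : Type} (q : G → W) (tF oF : Ind G Y → W)
    (ht : ∀ (m : G) (e : d.E), tF (⟨m, j e⟩ : Ind G Y) = q (m * (d.t e : G)))
    (ho : ∀ (m : G) (e : d.E), oF (⟨m, j e⟩ : Ind G Y) = q (m * (d.o e : G)))
    (m m' : G) (h : m'⁻¹ * m ∈ L) :
    Finsupp.mapDomain tF (K L d lam j m m' h) - Finsupp.mapDomain oF (K L d lam j m m' h) =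
      Finsupp.single (q m) (1 : ℤ) - Finsupp.single (q m') (1 : ℤ) := by
  unfold K
  rw [← Finsupp.mapDomain_comp, ← Finsupp.mapDomain_comp]
  have h1 : (tF ∘ fun e => (⟨m' * ((lam e).1 : G), j (lam e).2⟩ : Ind G Y)) =
      (fun l : L => q (m' * l)) ∘ d.t := by
    funext e
    show tF (⟨m' * ((lam e).1 : G), j (lam e).2⟩ : Ind G Y) = q (m' * d.t e)
    rw [ht]
    conv_rhs => rw [← hlam2 e, d.t_smul]
    show _ = q (m' * (((lam e).1 : G) * (d.t (lam e).2 : G)))
    rw [mul_assoc]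
  have h2 : (oF ∘ fun e => (⟨m' * ((lam e).1 : G), j (lam e).2⟩ : Ind G Y)) =
      (fun l : L => q (m' * l)) ∘ d.o := by
    funext e
    show oF (⟨m' * ((lam e).1 : G), j (lam e).2⟩ : Ind G Y) = q (m' * d.o e)
    rw [ho]
    conv_rhs => rw [← hlam2 e, d.o_smul]
    show _ = q (m' * (((lam e).1 : G) * (d.o (lam e).2 : G)))
    rw [mul_assoc]
  rw [h1, h2, Finsupp.mapDomain_comp, Finsupp.mapDomain_comp]
  have h3 := congrArg (Finsupp.lmapDomain ℤ ℤ (fun l : L => q (m' * l)))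
    (bd' d ⟨m'⁻¹ * m, h⟩ 1)
  rw [map_sub, map_sub] at h3
  simp only [Finsupp.lmapDomain_apply, Finsupp.mapDomain_single, OneMemClass.coe_one, mul_one,
    mul_inv_cancel_left] at h3
  exact h3

end K

theorem split_sub (h13 : SplitSelf) {G V V' : Type} [Group G] [MulAction G V] [MulAction G V']
    [IsFreeGroup G] [Nonempty V'] (hV : HasSplit G V) (ι : V' → V) (hι : Function.Injective ι)
    (hιg : ∀ (g : G) (v : V'), ι (g • v) = g • ι v) : HasSplit G V' := by
  classical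
  obtain ⟨p₀⟩ := ‹Nonempty V'›
  -- orbits outside the range of `ι`
  let Ω : Type := {q : Quotient (MulAction.orbitRel G V) // q.out ∉ Set.range ι}
  let rep : Ω → V := fun ω => ω.1.out
  have hrange : ∀ (g : G) (v : V), v ∈ Set.range ι → g • v ∈ Set.range ι := by
    rintro g _ ⟨v, rfl⟩
    exact ⟨g • v, hιg g v⟩
  have hrepn : ∀ (ω : Ω) (g : G), g • rep ω ∉ Set.range ι := by
    intro ω g h
    apply ω.2
    have := hrange g⁻¹ _ h
    rwa [inv_smul_smul] at this
  have hrepinj : ∀ (ω ω' : Ω) (g g' : G), g • rep ω = g' • rep ω' → ω = ω' := by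
    intro ω ω' g g' h
    apply Subtype.ext
    rw [← Quotient.out_eq ω.1, ← Quotient.out_eq ω'.1]
    apply Quotient.sound
    apply MulAction.orbitRel_apply.mpr
    refine ⟨g⁻¹ * g', ?_⟩
    show (g⁻¹ * g') • rep ω' = rep ω
    rw [mul_smul, ← h, inv_smul_smul]
  -- split data of the stabilizers
  have dd : ∀ ω : Ω,
      SplitData (MulAction.stabilizer G (rep ω)) (MulAction.stabilizer G (rep ω)) :=
    fun ω => (h13 (MulAction.stabilizer G (rep ω))).some
  have hlam : ∀ ω : Ω, ∃ lam : (dd ω).E → Ind (MulAction.stabilizer G (rep ω)) (dd ω).E,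
      (∀ (g : MulAction.stabilizer G (rep ω)) (e : (dd ω).E), lam (g • e) = g • lam e) ∧
      ∀ e, (lam e).1 • (lam e).2 = e := fun ω =>
    equivChoice (Z := Ind (MulAction.stabilizer G (rep ω)) (dd ω).E) (dd ω).free
      (fun e z => z.1 • z.2 = e) (fun e => ⟨⟨1, e⟩, one_smul _ _⟩)
      (fun g e z h => by
        show (g * z.1) • z.2 = g • e
        rw [mul_smul, h])
  choose lam hlam1 hlam2 using hlam
  -- the kernel data
  let Y : Type := Σ ω : Ω, (dd ω).E
  let p : V' ⊕ Ind G Ω → V := Sum.elim ι (fun x => x.1 • rep x.2)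
  let tF : Ind G Y → V' ⊕ Ind G Ω := fun f =>
    Sum.inr (⟨f.1 * ((dd f.2.1).t f.2.2 : G), f.2.1⟩ : Ind G Ω)
  let oF : Ind G Y → V' ⊕ Ind G Ω := fun f =>
    Sum.inr (⟨f.1 * ((dd f.2.1).o f.2.2 : G), f.2.1⟩ : Ind G Ω)
  let κ₁ : Ind G Ω → Ind G Ω → (Ind G Y →₀ ℤ) := fun a b =>
    if h : b.1⁻¹ * a.1 ∈ MulAction.stabilizer G (rep b.2) then
      K (MulAction.stabilizer G (rep b.2)) (dd b.2) (lam b.2) (fun e => (⟨b.2, e⟩ : Y)) a.1 b.1 h
    else 0
  let κ : V' ⊕ Ind G Ω → V' ⊕ Ind G Ω → (Ind G Y →₀ ℤ) :=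
    Sum.elim (fun _ _ => 0) (fun a => Sum.elim (fun _ => 0) (fun b => κ₁ a b))
  have hfib : ∀ a b : Ind G Ω, a.1 • rep a.2 = b.1 • rep b.2 →
      a.2 = b.2 ∧ b.1⁻¹ * a.1 ∈ MulAction.stabilizer G (rep b.2) := by
    intro a b h
    have h1 := hrepinj _ _ _ _ h
    refine ⟨h1, ?_⟩
    rw [MulAction.mem_stabilizer_iff, mul_smul, ← h1, h, h1, inv_smul_smul]
  have hsplit : HasSplit G (V' ⊕ Ind G Ω) := by
    refine split_ext hV p ?_ ?_ ind_free oF tF ?_ ?_ κ ?_ ?_ ?_
    · rintro g (v | ⟨m, ω⟩)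
      · exact hιg g v
      · exact mul_smul g m (rep ω)
    · intro v
      by_cases hv : v ∈ Set.range ι
      · obtain ⟨v', rfl⟩ := hv
        exact ⟨Sum.inl v', rfl⟩
      · have h1 := Quotient.exact (Quotient.out_eq (Quotient.mk (MulAction.orbitRel G V) v))
        obtain ⟨g, hg⟩ := MulAction.orbitRel_apply.mp h1
        have hg' : g • v = (Quotient.mk (MulAction.orbitRel G V) v).out := hg
        have h2 : (Quotient.mk (MulAction.orbitRel G V) v).out ∉ Set.range ι := by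
          rw [← hg']
          intro h
          apply hv
          have := hrange g⁻¹ _ h
          rwa [inv_smul_smul] at this
        refine ⟨Sum.inr (⟨g⁻¹, ⟨Quotient.mk (MulAction.orbitRel G V) v, h2⟩⟩ : Ind G Ω), ?_⟩
        show g⁻¹ • (Quotient.mk (MulAction.orbitRel G V) v).out = v
        rw [← hg', inv_smul_smul]
    · intro g f
      show Sum.inr (⟨g * f.1 * ((dd f.2.1).o f.2.2 : G), f.2.1⟩ : Ind G Ω) =
        Sum.inr (⟨g * (f.1 * ((dd f.2.1).o f.2.2 : G)), f.2.1⟩ : Ind G Ω)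
      rw [mul_assoc]
    · intro g f
      show Sum.inr (⟨g * f.1 * ((dd f.2.1).t f.2.2 : G), f.2.1⟩ : Ind G Ω) =
        Sum.inr (⟨g * (f.1 * ((dd f.2.1).t f.2.2 : G)), f.2.1⟩ : Ind G Ω)
      rw [mul_assoc]
    · rintro (v | a) (v' | a') (v'' | a'') h1 h2
      · exact add_zero _
      · exact absurd ⟨v', h2⟩ (hrepn a''.2 a''.1)
      · exact absurd ⟨v, h1⟩ (hrepn a'.2 a'.1)
      · exact absurd ⟨v, h1⟩ (hrepn a'.2 a'.1)
      · exact absurd ⟨v', h1.symm⟩ (hrepn a.2 a.1)
      · exact absurd ⟨v', h1.symm⟩ (hrepn a.2 a.1)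
      · exact absurd ⟨v'', h2.symm⟩ (hrepn a'.2 a'.1)
      · obtain ⟨e1, m1⟩ := hfib a a' h1
        obtain ⟨e2, m2⟩ := hfib a' a'' h2
        obtain ⟨e3, m3⟩ := hfib a a'' (h1.trans h2)
        obtain ⟨m, ω⟩ := a
        obtain ⟨m', ω'⟩ := a'
        obtain ⟨m'', ω''⟩ := a''
        simp only at e1 e2 e3
        subst e2
        subst e1
        show κ₁ ⟨m, ω⟩ ⟨m', ω⟩ + κ₁ ⟨m', ω⟩ ⟨m'', ω⟩ = κ₁ ⟨m, ω⟩ ⟨m'', ω⟩
        simp only [κ₁]
        rw [dif_pos m1, dif_pos m2, dif_pos m3]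
        exact K_add _ _ _ (hlam1 ω) _ _ _ _ _ _ _
    · rintro g (v | a) (v' | a') h
      · exact Finsupp.mapDomain_zero.symm
      · exact absurd ⟨v, h⟩ (hrepn a'.2 a'.1)
      · exact absurd ⟨v', h.symm⟩ (hrepn a.2 a.1)
      · obtain ⟨e1, m1⟩ := hfib a a' h
        obtain ⟨m, ω⟩ := a
        obtain ⟨m', ω'⟩ := a'
        simp only at e1
        subst e1
        have m2 : (g * m')⁻¹ * (g * m) ∈ MulAction.stabilizer G (rep ω) := by
          have : (g * m')⁻¹ * (g * m) = m'⁻¹ * m := by group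
          rw [this]
          exact m1
        show κ₁ ⟨g * m, ω⟩ ⟨g * m', ω⟩ = Finsupp.mapDomain (g • ·) (κ₁ ⟨m, ω⟩ ⟨m', ω⟩)
        simp only [κ₁]
        rw [dif_pos m1, dif_pos m2]
        exact K_smul _ _ _ _ _ _ _ _ _
    · rintro (v | a) (v' | a') h
      · have : v = v' := hι h
        subst this
        show Finsupp.mapDomain tF 0 - Finsupp.mapDomain oF 0 = _
        rw [Finsupp.mapDomain_zero, Finsupp.mapDomain_zero, sub_self, sub_self]
      · exact absurd ⟨v, h⟩ (hrepn a'.2 a'.1)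
      · exact absurd ⟨v', h.symm⟩ (hrepn a.2 a.1)
      · obtain ⟨e1, m1⟩ := hfib a a' h
        obtain ⟨m, ω⟩ := a
        obtain ⟨m', ω'⟩ := a'
        simp only at e1
        subst e1
        show Finsupp.mapDomain tF (κ₁ ⟨m, ω⟩ ⟨m', ω⟩) - Finsupp.mapDomain oF (κ₁ ⟨m, ω⟩ ⟨m', ω⟩) = _
        simp only [κ₁]
        rw [dif_pos m1]
        exact K_bd _ _ _ (hlam2 ω) _ (fun m => Sum.inr (⟨m, ω⟩ : Ind G Ω)) tF oF
          (fun _ _ => rfl) (fun _ _ => rfl) _ _ _
  refine split_retract hsplit Sum.inl (Sum.elim id (fun x => x.1 • p₀)) (fun _ _ => rfl) ?_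
    (fun _ => rfl)
  rintro g (v | ⟨m, ω⟩)
  · rfl
  · exact mul_smul g m p₀

/-- restriction of the group along an injective homomorphism -/
theorem split_comp {N N' V : Type} [Group N] [Group N'] [MulAction N V] (h : HasSplit N V)
    (j : N' →* N) (hj : Function.Injective j) : @HasSplit N' V _ (MulAction.compHom V j) := by
  obtain ⟨d⟩ := h
  let _ : MulAction N' V := MulAction.compHom V j
  let _ : MulAction N' d.E := MulAction.compHom d.E j
  refine mkSplit d.E d.o d.t d.D ?_ ?_ ?_ d.D_add ?_ (bd' d)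
  · intro n e h
    have h1 : j n = 1 := d.free (j n) e h
    exact hj (h1.trans (map_one j).symm)
  · intro n e
    exact d.o_smul (j n) e
  · intro n e
    exact d.t_smul (j n) e
  · intro n u v
    exact D_smul' d (j n) u v

theorem splitRes (h13 : SplitSelf) : SplitRes := by
  intro N V N' V' _ _ _ _ _ _ hV j hj ι hι hιg
  let _ : MulAction N' V := MulAction.compHom V j
  exact split_sub h13 (split_comp hV j hj) ι hι hιg

end Pool.Agent.TH247.LR14
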