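import Pool.Agent.TH313.HI.Sect

set_option autoImplicit false

open Set Filter Topology

namespace Pool.Agent.TH247.HF2

open Pool.Agent.TH313.HI

variable {X : Type*} [NormedAddCommGroup X] [NormedSpace ℂ X] [CompleteSpace X]

theorem neg_not_mem {ω : ℝ} (h0 : 0 ≤ ω) (h1 : ω < Real.pi) {t : ℝ} (ht : 0 < t) :
    -(t : ℂ) ∉ closure (sector ω) := by
  have hsub : closure (sector ω) ⊆ {z : ℂ | Real.cos ω * ‖z‖ ≤ z.re} := by
    refine closure_minimal ?_ (isClosed_le (by fun_prop) (by fun_prop))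
    rintro z ⟨hz, hz1⟩
    change Real.cos ω * ‖z‖ ≤ z.re
    rw [← Complex.norm_mul_cos_arg z, mul_comm, ← Real.cos_abs (Complex.arg z)]
    gcongr
    exact Real.cos_le_cos_of_nonneg_of_le_pi (abs_nonneg _) h1.le hz1.le
  intro h
  have h2 := hsub h
  simp only [Set.mem_ofPred_eq, norm_neg, Complex.norm_real, Real.norm_of_nonneg ht.le,
    Complex.neg_re, Complex.ofReal_re] at h2
  have h3 : -1 < Real.cos ω := by
    rw [← Real.cos_pi]
    exact Real.cos_lt_cos_of_nonneg_of_le_pi h0 le_rfl h1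
  nlinarith

/-- the operators `t (t + A)⁻¹` -/
theorem exists_r (A : X →ₗ.[ℂ] X) (ω : ℝ) (h0 : 0 < ω) (h1 : ω < Real.pi)
    (hs : IsSectorialOfAngle A ω) : ∃ (M : ℝ) (r : ℝ → X →L[ℂ] X), 0 ≤ M ∧
    (∀ t, 0 < t → ‖r t‖ ≤ M) ∧
    (∀ t, 0 < t → ∀ x, ∃ h : r t x ∈ A.domain, A ⟨r t x, h⟩ = (t : ℂ) • (x - r t x)) ∧
    (∀ t, 0 < t → ∀ x : A.domain, r t (A x) = (t : ℂ) • ((x : X) - r t x)) ∧
    (∀ t, 0 < t → ∀ x, r t x = 0 → x = 0) := by
  classical
  obtain ⟨C, hC⟩ := hs.bound ((ω + Real.pi) / 2) (by linarith) (by linarith)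
  have hR : ∀ t : ℝ, 0 < t → ∃ R, IsResolvent A (-(t : ℂ)) R := fun t ht =>
    hs.resolvent _ (neg_not_mem h0.le h1 ht)
  choose! R hR using hR
  have hpos : (0:ℝ) ≤ max C 0 := le_max_right _ _
  refine ⟨max C 0, fun t => (-(t : ℂ)) • R t, hpos, ?_, ?_, ?_, ?_⟩
  · intro t ht
    exact (hC _ _ (neg_not_mem (by linarith) (by linarith) ht) (hR t ht)).trans (le_max_left _ _)
  · intro t ht x
    obtain ⟨h, hx⟩ := (hR t ht).1 x
    have h' : ((-(t : ℂ)) • R t) x ∈ A.domain := A.domain.smul_mem _ h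
    refine ⟨h', ?_⟩
    have e1 : (⟨((-(t : ℂ)) • R t) x, h'⟩ : A.domain) = (-(t : ℂ)) • (⟨R t x, h⟩ : A.domain) := by
      apply Subtype.ext; rfl
    rw [e1, LinearPMap.map_smul]
    have e2 : A ⟨R t x, h⟩ = -(t : ℂ) • R t x - x := by
      have h2 := hx
      rw [sub_eq_iff_eq_add] at h2
      rw [eq_sub_iff_add_eq, add_comm]
      exact h2.symm
    rw [e2]
    show _ = (t : ℂ) • (x - (-(t : ℂ)) • R t x)
    module
  · intro t ht x
    have hx := (hR t ht).2 x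
    rw [map_sub, map_smul] at hx
    show (-(t : ℂ)) • R t (A x) = (t : ℂ) • ((x : X) - (-(t : ℂ)) • R t x)
    have e : R t (A x) = -(t : ℂ) • R t x - x := by
      have h2 := hx
      rw [sub_eq_iff_eq_add] at h2
      rw [eq_sub_iff_add_eq, add_comm]
      exact h2.symm
    rw [e]
    module
  · intro t ht x hx
    obtain ⟨h, hx'⟩ := (hR t ht).1 x
    have ht0 : (-(t : ℂ)) ≠ 0 := by
      rw [neg_ne_zero]; exact_mod_cast ht.ne'
    have h0' : R t x = 0 := by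
      have : (-(t : ℂ)) • R t x = 0 := hx
      exact (smul_eq_zero.1 this).resolve_left ht0
    have e1 : (⟨R t x, h⟩ : A.domain) = 0 := by
      apply Subtype.ext; exact h0'
    rw [← hx', e1, h0', LinearPMap.map_zero, smul_zero, sub_zero]

/-- a bounded sequence criterion for an operator to be bounded below on a closed subspace -/
theorem bddbelow (T : X →L[ℂ] X)
    (hprop : ∀ x : ℕ → X, (∃ M : ℝ, ∀ n, ‖x n‖ ≤ M) →
      Tendsto (fun n => T (x n)) atTop (𝓝 0) →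
      ∃ φ : ℕ → ℕ, StrictMono φ ∧ ∃ y, Tendsto (fun n => x (φ n)) atTop (𝓝 y))
    (Y : Submodule ℂ X) (hY : IsClosed (Y : Set X)) (hinj : ∀ y ∈ Y, T y = 0 → y = 0) :
    ∃ c : ℝ, 0 < c ∧ ∀ y ∈ Y, c * ‖y‖ ≤ ‖T y‖ := by
  by_contra hcon
  push Not at hcon
  have hex : ∀ n : ℕ, ∃ y ∈ Y, ‖y‖ = 1 ∧ ‖T y‖ ≤ 1 / ((n : ℝ) + 1) := by
    intro n
    obtain ⟨y, hy, hy'⟩ := hcon (1 / ((n : ℝ) + 1)) (by positivity)
    have hy0 : y ≠ 0 := by
      rintro rfl
      simp at hy'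
    have hn : 0 < ‖y‖ := norm_pos_iff.2 hy0
    refine ⟨((‖y‖⁻¹ : ℝ) : ℂ) • y, Y.smul_mem _ hy, ?_, ?_⟩
    · rw [norm_smul, Complex.norm_real, Real.norm_of_nonneg (by positivity), inv_mul_cancel₀ hn.ne']
    · rw [map_smul, norm_smul, Complex.norm_real, Real.norm_of_nonneg (by positivity),
        inv_mul_le_iff₀ hn]
      linarith
  choose y hy hy1 hy2 using hex
  have hT : Tendsto (fun n => T (y n)) atTop (𝓝 0) := by
    rw [tendsto_zero_iff_norm_tendsto_zero]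
    exact squeeze_zero (fun n => norm_nonneg _) hy2 tendsto_one_div_add_atTop_nhds_zero_nat
  obtain ⟨φ, hφ, z, hz⟩ := hprop y ⟨1, fun n => (hy1 n).le⟩ hT
  have hzY : z ∈ Y := hY.mem_of_tendsto hz (Eventually.of_forall fun n => hy _)
  have hz1 : ‖z‖ = 1 := by
    have := hz.norm
    simp only [hy1] at this
    exact (tendsto_nhds_unique this tendsto_const_nhds)
  have hTz : T z = 0 := by
    have h1 : Tendsto (fun n => T (y (φ n))) atTop (𝓝 (T z)) := (T.continuous.tendsto z).comp hz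
    have h2 : Tendsto (fun n => T (y (φ n))) atTop (𝓝 0) := hT.comp hφ.tendsto_atTop
    exact tendsto_nhds_unique h1 h2
  rw [hinj z hzY hTz, norm_zero] at hz1
  exact zero_ne_one hz1

/-- pointwise convergence to zero extends to the closure -/
theorem tendsto_closure (s : ℕ → X →L[ℂ] X) (M : ℝ) (hM : 0 ≤ M) (hs : ∀ n, ‖s n‖ ≤ M) (S : Set X)
    (h : ∀ y ∈ S, Tendsto (fun n => s n y) atTop (𝓝 0)) :
    ∀ y ∈ closure S, Tendsto (fun n => s n y) atTop (𝓝 0) := by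
  intro y hy
  rw [Metric.tendsto_atTop]
  intro ε hε
  obtain ⟨z, hz, hyz⟩ := Metric.mem_closure_iff.1 hy (ε / (2 * (M + 1))) (by positivity)
  have h1 := h z hz
  rw [Metric.tendsto_atTop] at h1
  obtain ⟨N, hN⟩ := h1 (ε / 2) (half_pos hε)
  refine ⟨N, fun n hn => ?_⟩
  have h2 := hN n hn
  rw [dist_zero_right] at h2 ⊢
  have e : s n y = s n (y - z) + s n z := by rw [map_sub]; abel
  rw [e]
  have h3 : ‖s n (y - z)‖ ≤ M * (ε / (2 * (M + 1))) := by
    refine (s n).le_of_opNorm_le_of_le (hs n) ?_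
    rw [← dist_eq_norm]; exact hyz.le
  have h4 : M * (ε / (2 * (M + 1))) ≤ ε / 2 := by
    rw [← mul_div_assoc, div_le_div_iff₀ (by positivity) (by norm_num)]
    nlinarith
  refine lt_of_le_of_lt (norm_add_le _ _) ?_
  linarith

/-- Structure of sectorial operators on a space with few operators. -/
theorem split_of_few (lam : (X →L[ℂ] X) →ₐ[ℂ] ℂ)
    (hprop : ∀ T : X →L[ℂ] X, lam T ≠ 0 → ∀ x : ℕ → X, (∃ M : ℝ, ∀ n, ‖x n‖ ≤ M) →
      Tendsto (fun n => T (x n)) atTop (𝓝 0) →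
      ∃ φ : ℕ → ℕ, StrictMono φ ∧ ∃ y, Tendsto (fun n => x (φ n)) atTop (𝓝 y))
    (hone : ∀ T : ℕ → X →L[ℂ] X, (∃ M : ℝ, ∀ n, ‖T n‖ ≤ M) →
      (∀ x, Tendsto (fun n => T n x) atTop (𝓝 x)) → Tendsto (fun n => lam (T n)) atTop (𝓝 1))
    (hfin : ∀ T : ℕ → X →L[ℂ] X, (∃ M : ℝ, ∀ n, ‖T n‖ ≤ M) → (∀ n, lam (T n) = 1) →
      ∀ Y : Submodule ℂ X, IsClosed (Y : Set X) → (∀ y ∈ Y, Tendsto (fun n => T n y) atTop (𝓝 0)) →
        FiniteDimensional ℂ Y)
    (A : X →ₗ.[ℂ] X) (hcl : A.IsClosed) (hd : Dense (A.domain : Set X)) (ω : ℝ) (h0 : 0 < ω)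
    (h1 : ω < Real.pi) (hs : IsSectorialOfAngle A ω) :
    A.domain = ⊤ ∧ ∃ (B : X →L[ℂ] X) (Y : Submodule ℂ X), IsClosed (Y : Set X) ∧
      IsCompl (LinearMap.ker (B : X →ₗ[ℂ] X)) Y ∧ (∀ x, B x ∈ Y) ∧
      (∀ y ∈ Y, ∃ x ∈ Y, B x = y) ∧ ∀ x : A.domain, A x = B x := by
  obtain ⟨M, r, hM, hrM, hrA, hAr, hr0⟩ := exists_r A ω h0 h1 hs
  -- (1)
  have hpt : ∀ x, Tendsto (fun n : ℕ => r ((n : ℝ) + 1) x) atTop (𝓝 x) := by
    have hdom : ∀ x ∈ (A.domain : Set X),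
        Tendsto (fun n : ℕ => (r ((n : ℝ) + 1) - 1) x) atTop (𝓝 0) := by
      intro x hx
      have hb : ∀ n : ℕ, ‖(r ((n : ℝ) + 1) - 1) x‖ ≤ (M * ‖A ⟨x, hx⟩‖) * (1 / ((n : ℝ) + 1)) := by
        intro n
        have hn : (0 : ℝ) < (n : ℝ) + 1 := by positivity
        have e := hAr _ hn ⟨x, hx⟩
        have e2 : (r ((n : ℝ) + 1) - 1) x = -((((n : ℝ) + 1 : ℝ) : ℂ)⁻¹ • r ((n : ℝ) + 1) (A ⟨x, hx⟩)) := by
          rw [e, smul_smul, inv_mul_cancel₀ (by exact_mod_cast hn.ne'), one_smul]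
          show r _ x - x = _
          abel
        rw [e2, norm_neg, norm_smul, norm_inv, Complex.norm_real, Real.norm_of_nonneg hn.le,
          mul_comm, one_div]
        gcongr
        exact (r _).le_of_opNorm_le (hrM _ hn) _
      rw [tendsto_zero_iff_norm_tendsto_zero]
      refine squeeze_zero (fun n => norm_nonneg _) hb ?_
      have := (tendsto_one_div_add_atTop_nhds_zero_nat (𝕜 := ℝ)).const_mul (M * ‖A ⟨x, hx⟩‖)
      rwa [mul_zero] at this
    intro x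
    have hall := tendsto_closure (fun n : ℕ => r ((n : ℝ) + 1) - 1) (M + 1) (by linarith)
      (fun n => (norm_sub_le _ _).trans (by
        have h2 := hrM ((n : ℝ) + 1) (by positivity)
        have h3 : ‖(1 : X →L[ℂ] X)‖ ≤ 1 := ContinuousLinearMap.norm_id_le
        linarith)) _ hdom x (hd.closure_eq ▸ Set.mem_univ x)
    have h4 := hall.add_const x
    simp only [zero_add] at h4
    refine h4.congr fun n => ?_
    show r _ x - x + x = _
    abel
  have hlim := hone (fun n : ℕ => r ((n : ℝ) + 1)) ⟨M, fun n => hrM _ (by positivity)⟩ hpt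
  obtain ⟨n, hn⟩ : ∃ n : ℕ, lam (r ((n : ℝ) + 1)) ≠ 0 := by
    by_contra hcon
    push Not at hcon
    simp only [hcon] at hlim
    exact zero_ne_one (tendsto_nhds_unique tendsto_const_nhds hlim)
  obtain ⟨t, ht⟩ : ∃ t : ℝ, t = (n : ℝ) + 1 := ⟨_, rfl⟩
  have ht0 : 0 < t := by rw [ht]; positivity
  rw [← ht] at hn
  obtain ⟨c, hc, hcb⟩ := bddbelow (r t) (hprop (r t) hn) ⊤ isClosed_univ
    (fun y _ hy => hr0 t ht0 y hy)
  have hantil : AntilipschitzWith (Real.toNNReal c⁻¹) (r t) := by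
    refine ContinuousLinearMap.antilipschitz_of_bound (r t) (fun x => ?_)
    rw [Real.coe_toNNReal _ (inv_nonneg.2 hc.le), ← div_eq_inv_mul, le_div_iff₀ hc, mul_comm]
    exact hcb x trivial
  have htc : (t : ℂ) ≠ 0 := by exact_mod_cast ht0.ne'
  have hran : ∀ x : A.domain, ∃ y, r t y = x := by
    intro x
    refine ⟨(x : X) + (t : ℂ)⁻¹ • A x, ?_⟩
    rw [map_add, map_smul, hAr t ht0 x, smul_smul, inv_mul_cancel₀ htc, one_smul]
    abel
  have hsurj : Function.Surjective (r t) := by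
    have hclr : IsClosed (Set.range (r t)) := hantil.isClosed_range (r t).uniformContinuous
    have hdr : Dense (Set.range (r t)) := hd.mono (fun x hx => hran ⟨x, hx⟩)
    rw [← Set.range_eq_univ]
    rw [← hclr.closure_eq]
    exact hdr.closure_eq
  have htop : A.domain = ⊤ := by
    rw [eq_top_iff]
    rintro x -
    obtain ⟨y, rfl⟩ := hsurj x
    exact (hrA t ht0 y).1
  refine ⟨htop, ?_⟩
  have hker : LinearMap.ker (r t : X →ₗ[ℂ] X) = ⊥ := by
    rw [LinearMap.ker_eq_bot']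
    exact fun x hx => hr0 t ht0 x hx
  have hrange : LinearMap.range (r t : X →ₗ[ℂ] X) = ⊤ := LinearMap.range_eq_top.2 hsurj
  set e := ContinuousLinearEquiv.ofBijective (r t) hker hrange with he
  have hes : ∀ x, r t (e.symm x) = x := fun x => by
    have := e.apply_symm_apply x
    rwa [he, ContinuousLinearEquiv.coeFn_ofBijective] at this
  obtain ⟨B, hBdef⟩ : ∃ B : X →L[ℂ] X, ∀ x, B x = (t : ℂ) • (e.symm x - x) :=
    ⟨(t : ℂ) • ((e.symm : X →L[ℂ] X) - 1), fun x => rfl⟩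
  have hAB : ∀ x : A.domain, A x = B x := by
    intro x
    obtain ⟨h, h'⟩ := hrA t ht0 (e.symm x)
    have e1 : (⟨r t (e.symm x), h⟩ : A.domain) = x := Subtype.ext (hes x)
    rw [e1] at h'
    rw [h', hBdef, hes]
  have hmem : ∀ x : X, x ∈ A.domain := fun x => htop ▸ Submodule.mem_top
  have hBr : ∀ μ : ℝ, 0 < μ → ∀ x, B (r μ x) = (μ : ℂ) • (x - r μ x) := by
    intro μ hμ x
    obtain ⟨h, h'⟩ := hrA μ hμ x
    rw [← h', hAB]
  have hrB : ∀ μ : ℝ, 0 < μ → ∀ x, r μ (B x) = (μ : ℂ) • (x - r μ x) := by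
    intro μ hμ x
    have := hAr μ hμ ⟨x, hmem x⟩
    rwa [hAB] at this
  -- (2)
  have hpos : ∀ n : ℕ, (0 : ℝ) < 1 / ((n : ℝ) + 1) := fun n => by positivity
  obtain ⟨s, hsdef⟩ : ∃ s : ℕ → X →L[ℂ] X, ∀ n, s n = r (1 / ((n : ℝ) + 1)) := ⟨_, fun n => rfl⟩
  have hsM : ∀ n, ‖s n‖ ≤ M := fun n => by rw [hsdef]; exact hrM _ (hpos n)
  have hμ0 : Tendsto (fun n : ℕ => ((1 / ((n : ℝ) + 1) : ℝ) : ℂ)) atTop (𝓝 0) := by
    have h2 := (Complex.continuous_ofReal.tendsto 0).comp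
      (tendsto_one_div_add_atTop_nhds_zero_nat (𝕜 := ℝ))
    rw [Complex.ofReal_zero] at h2
    exact h2
  have hsmall : ∀ x, Tendsto (fun n : ℕ => ((1 / ((n : ℝ) + 1) : ℝ) : ℂ) • (x - s n x)) atTop (𝓝 0) := by
    intro x
    rw [tendsto_zero_iff_norm_tendsto_zero]
    have hb : ∀ n : ℕ, ‖((1 / ((n : ℝ) + 1) : ℝ) : ℂ) • (x - s n x)‖ ≤
        ‖((1 / ((n : ℝ) + 1) : ℝ) : ℂ)‖ * ((1 + M) * ‖x‖) := by
      intro n
      rw [norm_smul]
      gcongr
      refine (norm_sub_le _ _).trans ?_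
      have := (s n).le_of_opNorm_le (hsM n) x
      linarith
    refine squeeze_zero (fun n => norm_nonneg _) hb ?_
    have := (tendsto_zero_iff_norm_tendsto_zero.1 hμ0).mul_const ((1 + M) * ‖x‖)
    rwa [zero_mul] at this
  obtain ⟨Y, hYdef⟩ : ∃ Y : Submodule ℂ X,
      Y = (LinearMap.range (B : X →ₗ[ℂ] X)).topologicalClosure := ⟨_, rfl⟩
  have hYcl : IsClosed (Y : Set X) := by
    rw [hYdef]; exact Submodule.isClosed_topologicalClosure _
  have hYcoe : (Y : Set X) = closure (Set.range B) := by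
    rw [hYdef, Submodule.topologicalClosure_coe]
    rfl
  have hBY : ∀ x, B x ∈ Y := fun x => by
    have : B x ∈ (Y : Set X) := by rw [hYcoe]; exact subset_closure ⟨x, rfl⟩
    exact this
  have hY0 : ∀ y ∈ Y, Tendsto (fun n => s n y) atTop (𝓝 0) := by
    intro y hy
    have hy' : y ∈ closure (Set.range B) := by rw [← hYcoe]; exact hy
    refine tendsto_closure s M hM hsM _ ?_ y hy'
    rintro _ ⟨x, rfl⟩
    refine (hsmall x).congr fun n => ?_
    rw [hsdef, hrB _ (hpos n)]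
  have hN : ∀ x, B x = 0 → ∀ n, s n x = x := by
    intro x hx n
    have h2 := hrB _ (hpos n) x
    rw [hx, map_zero] at h2
    have h3 : ((1 / ((n : ℝ) + 1) : ℝ) : ℂ) ≠ 0 := by exact_mod_cast (hpos n).ne'
    have h4 := (smul_eq_zero.1 h2.symm).resolve_left h3
    rw [hsdef]
    exact (sub_eq_zero.1 h4).symm
  have hNY : ∀ x ∈ Y, B x = 0 → x = 0 := by
    intro x hxY hx
    have h2 := hY0 x hxY
    simp only [hN x hx] at h2
    exact tendsto_nhds_unique tendsto_const_nhds h2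
  have hsub : ∀ n x, x - s n x ∈ Y := by
    intro n x
    have h3 : ((1 / ((n : ℝ) + 1) : ℝ) : ℂ) ≠ 0 := by exact_mod_cast (hpos n).ne'
    have h2 := hBr _ (hpos n) x
    have h4 : x - s n x = B (((1 / ((n : ℝ) + 1) : ℝ) : ℂ)⁻¹ • s n x) := by
      rw [map_smul, hsdef, h2, smul_smul, inv_mul_cancel₀ h3, one_smul]
    rw [h4]; exact hBY _
  have hdisj : Disjoint (LinearMap.ker (B : X →ₗ[ℂ] X)) Y := by
    rw [Submodule.disjoint_def]
    intro x hx hxY
    exact hNY x hxY hx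
  by_cases hlB : lam B = 0
  · have hs1 : ∀ n, lam (s n) = 1 := by
      intro n
      have h3 : ((1 / ((n : ℝ) + 1) : ℝ) : ℂ) ≠ 0 := by exact_mod_cast (hpos n).ne'
      have h4 : (1 : X →L[ℂ] X) - s n = B * (((1 / ((n : ℝ) + 1) : ℝ) : ℂ)⁻¹ • s n) := by
        ext x
        show x - s n x = B (((1 / ((n : ℝ) + 1) : ℝ) : ℂ)⁻¹ • s n x)
        rw [map_smul, hsdef, hBr _ (hpos n) x, smul_smul, inv_mul_cancel₀ h3, one_smul]
      have h5 := congrArg lam h4
      rw [map_sub, map_one, map_mul, hlB, zero_mul, sub_eq_zero] at h5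
      exact h5.symm
    have hfd : FiniteDimensional ℂ Y := hfin s ⟨M, hsM⟩ hs1 Y hYcl hY0
    have hle : LinearMap.range (B : X →ₗ[ℂ] X) ≤ Y := by
      rintro _ ⟨x, rfl⟩; exact hBY x
    obtain ⟨b, hb⟩ : ∃ b : Y →ₗ[ℂ] Y, ∀ y, ((b y : Y) : X) = B y :=
      ⟨((B : X →ₗ[ℂ] X).domRestrict Y).codRestrict Y (fun y => hBY _), fun y => rfl⟩
    have hbinj : Function.Injective b := by
      rw [← LinearMap.ker_eq_bot, LinearMap.ker_eq_bot']
      intro y hy
      have : B y = 0 := by rw [← hb, hy]; rfl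
      exact Subtype.ext (hNY y y.2 this)
    have hbsurj : Function.Surjective b := LinearMap.injective_iff_surjective.1 hbinj
    have hsY : ∀ y ∈ Y, ∃ x ∈ Y, B x = y := by
      intro y hy
      obtain ⟨x, hx⟩ := hbsurj ⟨y, hy⟩
      exact ⟨x, x.2, by rw [← hb, hx]⟩
    refine ⟨B, Y, hYcl, ⟨hdisj, ?_⟩, hBY, hsY, hAB⟩
    rw [codisjoint_iff, eq_top_iff]
    rintro x -
    obtain ⟨y, hy, hyx⟩ := hsY (B x) (hBY x)
    rw [Submodule.mem_sup]
    refine ⟨x - y, ?_, y, hy, by abel⟩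
    rw [LinearMap.mem_ker]
    show B (x - y) = 0
    rw [map_sub, hyx, sub_self]
  · have hsum : ∀ x, ∃ z y, B z = 0 ∧ y ∈ Y ∧ z + y = x := by
      intro x
      have hT : Tendsto (fun n => B (s n x)) atTop (𝓝 0) := by
        refine (hsmall x).congr fun n => ?_
        rw [hsdef, hBr _ (hpos n)]
      obtain ⟨φ, hφ, z, hz⟩ := hprop B hlB (fun n => s n x)
        ⟨M * ‖x‖, fun n => (s n).le_of_opNorm_le (hsM n) x⟩ hT
      have hBz : B z = 0 := by
        have h2 : Tendsto (fun n => B (s (φ n) x)) atTop (𝓝 (B z)) := (B.continuous.tendsto z).comp hz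
        have h3 : Tendsto (fun n => B (s (φ n) x)) atTop (𝓝 0) := hT.comp hφ.tendsto_atTop
        exact tendsto_nhds_unique h2 h3
      refine ⟨z, x - z, hBz, ?_, by abel⟩
      exact hYcl.mem_of_tendsto (hz.const_sub x) (Eventually.of_forall fun n => hsub _ x)
    obtain ⟨c', hc', hcb'⟩ := bddbelow B (hprop B hlB) Y hYcl hNY
    have hsY : ∀ y ∈ Y, ∃ x ∈ Y, B x = y := by
      intro y hy
      have hy' : y ∈ closure (Set.range B) := by rw [← hYcoe]; exact hy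
      obtain ⟨u, hu, huy⟩ := mem_closure_iff_seq_limit.1 hy'
      have hex : ∀ n, ∃ x ∈ Y, B x = u n := by
        intro n
        obtain ⟨x, hx⟩ := hu n
        obtain ⟨z, y', hz, hy', rfl⟩ := hsum x
        refine ⟨y', hy', ?_⟩
        rw [← hx, map_add, hz, zero_add]
      choose x hxY hxu using hex
      have hcau : CauchySeq x := by
        have hcu : CauchySeq u := huy.cauchySeq
        rw [Metric.cauchySeq_iff] at hcu ⊢
        intro ε hε
        obtain ⟨N, hN'⟩ := hcu (c' * ε) (by positivity)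
        refine ⟨N, fun m hm k hk => ?_⟩
        have h2 := hN' m hm k hk
        rw [dist_eq_norm] at h2 ⊢
        have h3 := hcb' (x m - x k) (Y.sub_mem (hxY m) (hxY k))
        rw [map_sub, hxu, hxu] at h3
        have h4 := lt_of_le_of_lt h3 h2
        exact lt_of_mul_lt_mul_left h4 hc'.le
      obtain ⟨x0, hx0⟩ := cauchySeq_tendsto_of_complete hcau
      refine ⟨x0, hYcl.mem_of_tendsto hx0 (Eventually.of_forall hxY), ?_⟩
      have h2 : Tendsto (fun n => B (x n)) atTop (𝓝 (B x0)) := (B.continuous.tendsto x0).comp hx0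
      simp only [hxu] at h2
      exact tendsto_nhds_unique h2 huy
    refine ⟨B, Y, hYcl, ⟨hdisj, ?_⟩, hBY, hsY, hAB⟩
    rw [codisjoint_iff, eq_top_iff]
    rintro x -
    obtain ⟨z, y, hz, hy, rfl⟩ := hsum x
    rw [Submodule.mem_sup]
    exact ⟨z, hz, y, hy, rfl⟩

end Pool.Agent.TH247.HF2
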