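import Pool.Agent.TH981.LO.Bas

set_option autoImplicit false

open Pool.Agent.TH981.LO
open scoped BigOperators symmDiff MeasureTheory

namespace Pool.Agent.TH247.J470

theorem stail (d : ℕ) (x : ℝ) (hx0 : 0 < x) (hx1 : x < 1) (h : S_CT d x) : S_STAIL d x := by
  classical
  obtain ⟨c, hc, C, hC, h⟩ := h
  refine ⟨c, hc, C, hC, ?_⟩
  intro D η₀ U L hη hbd
  have hw0 : ∀ e ∈ D, (0:ℝ) ≤ (fun _ : Ed d => x) e := fun _ _ => hx0.le
  have hw1 : ∀ e ∈ D, (fun _ : Ed d => x) e ≤ 1 := fun _ _ => hx1.le
  have h1 := h D U L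
  have hZ0 : 0 < ZZ d x D 0 := lt_of_lt_of_le one_pos ((lat d).one_le_Z_zero hw0)
  have h2 := (lat d).Z_ge_of_join hη (ind U) hbd hw0 hw1
  rw [Finset.prod_const] at h2
  rw [MG.fkp, div_le_iff₀ hZ0] at h1
  rw [MG.PS_omega]
  have h3 : ZZ d x D 0 ≤ (x⁻¹) ^ η₀.card * ZZ d x D (ind U) := by
    have h4 := mul_le_mul_of_nonneg_left h2 (pow_nonneg (inv_nonneg.mpr hx0.le) η₀.card)
    rw [← mul_assoc, ← mul_pow, inv_mul_cancel₀ hx0.ne', one_pow, one_mul] at h4
    exact h4
  calc _ ≤ (lat d).PS (fun _ => x) D 0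
        (fun ω _ => if L ≤ ((lat d).clF ω U).card then 1 else 0) := by
        refine (lat d).PS_mono 0 hw0 hw1 fun ω _ η _ _ => ?_
        show (if (lat d).fe ω (ind U) then (if L ≤ ((lat d).clF ω U).card then 1 else 0) else 0 : ℝ)
          ≤ if L ≤ ((lat d).clF ω U).card then 1 else 0
        split_ifs <;> norm_num
    _ ≤ C ^ U.card * Real.exp (-c * L) * ZZ d x D 0 := by
        refine le_trans (le_of_eq ?_) h1
        congr!
    _ ≤ C ^ U.card * Real.exp (-c * L) * ((x⁻¹) ^ η₀.card * ZZ d x D (ind U)) :=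
        mul_le_mul_of_nonneg_left h3 (mul_nonneg (pow_nonneg (by linarith) _) (Real.exp_pos _).le)
    _ = _ := by ring

theorem ind_erase {d : ℕ} {U : Finset (Vt d)} {a b : Vt d} (ha : a ∈ U) (hb : b ∈ U)
    (hab : a ≠ b) : ind U = ind ((U.erase a).erase b) + two a b := by
  funext v
  unfold ind two
  rw [Pi.add_apply, Pi.add_apply, Pi.single_apply, Pi.single_apply]
  by_cases h1 : v = a
  · subst h1
    simp [ha, hab]
  · by_cases h2 : v = b
    · subst h2
      simp [hb, h1]
    · simp [h1, h2]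

theorem close_pair (d M T : ℕ) (hM : 1 ≤ M) (U : Finset (Vt d)) (hU : U ⊆ box d T)
    (hc : M ^ d < U.card) : ∃ a ∈ U, ∃ b ∈ U, a ≠ b ∧ M * nm (a - b) ≤ 2 * T := by
  classical
  have h0 : (Fintype.piFinset (fun _ : Fin d => Finset.Ico (0 : ℤ) M)).card = M ^ d := by
    rw [Fintype.card_piFinset]
    simp
  obtain ⟨a, ha, b, hb, hab, hf⟩ := Finset.exists_ne_map_eq_of_card_lt_of_maps_to
    (s := U) (t := Fintype.piFinset (fun _ : Fin d => Finset.Ico (0 : ℤ) M))
    (f := fun v i => ((v i + T) * M) / (2 * T + 1)) (by rw [h0]; exact hc) (by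
      intro v hv
      have hv := mem_box.mp (hU hv)
      rw [nm_le_iff] at hv
      rw [Finset.mem_coe, Fintype.mem_piFinset]
      intro i
      have h1 := hv i
      rw [Finset.mem_Ico]
      have h2 : 0 ≤ v i + T := by omega
      have h3 : v i + T ≤ 2 * T := by omega
      constructor
      · apply Int.ediv_nonneg
        · exact mul_nonneg h2 (by positivity)
        · positivity
      · apply Int.ediv_lt_of_lt_mul (by positivity)
        have hM' : (1 : ℤ) ≤ M := by exact_mod_cast hM
        nlinarith)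
  refine ⟨a, ha, b, hb, hab, ?_⟩
  rcases Nat.eq_zero_or_pos d with hd | hd
  · subst hd
    exact absurd (Subsingleton.elim a b) hab
  have hkey : ∀ i, M * ((a - b) i).natAbs ≤ 2 * T := by
    intro i
    have h1 : ((a i + T) * M) / (2 * (T : ℤ) + 1) = ((b i + T) * M) / (2 * (T : ℤ) + 1) :=
      congrFun hf i
    have hp : (0 : ℤ) < 2 * (T : ℤ) + 1 := by positivity
    have h2 := Int.emod_add_mul_ediv ((a i + T) * M) (2 * (T : ℤ) + 1)
    have h3 := Int.emod_add_mul_ediv ((b i + T) * M) (2 * (T : ℤ) + 1)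
    have h4 := Int.emod_nonneg ((a i + T) * M) hp.ne'
    have h5 := Int.emod_nonneg ((b i + T) * M) hp.ne'
    have h6 := Int.emod_lt_of_pos ((a i + T) * M) hp
    have h7 := Int.emod_lt_of_pos ((b i + T) * M) hp
    rw [h1] at h2
    have h8 : (M : ℤ) * (a i - b i) =
        ((a i + T) * M) % (2 * (T : ℤ) + 1) - ((b i + T) * M) % (2 * (T : ℤ) + 1) := by
      linear_combination h3 - h2
    have h9 : |(M : ℤ) * (a i - b i)| ≤ 2 * T := by
      rw [h8, abs_le]
      constructor <;> linarith
    rw [Pi.sub_apply]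
    have h10 : (((M * (a i - b i).natAbs : ℕ)) : ℤ) = |(M : ℤ) * (a i - b i)| := by
      rw [abs_mul]
      push_cast
      simp
    have : (((M * (a i - b i).natAbs : ℕ)) : ℤ) ≤ ((2 * T : ℕ) : ℤ) := by
      rw [h10]; push_cast; exact h9
    exact_mod_cast this
  have hex : ∃ i, nm (a - b) = ((a - b) i).natAbs := by
    unfold nm
    obtain ⟨i, _, hi⟩ := Finset.exists_mem_eq_sup (Finset.univ : Finset (Fin d))
      ⟨⟨0, hd⟩, Finset.mem_univ _⟩ (fun i => ((a - b) i).natAbs)
    exact ⟨i, hi⟩
  obtain ⟨i, hi⟩ := hex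
  rw [hi]
  exact hkey i

theorem tj_aux (d M T : ℕ) (hM : 1 ≤ M) : ∀ (n : ℕ) (U : Finset (Vt d)), U.card = n →
    U ⊆ box d T → Even n → ∃ η₀ ⊆ EB d T, (lat d).bd η₀ = ind U ∧
      M * η₀.card ≤ d * T * n + M * (min n (M ^ d) * d * T) := by
  classical
  intro n
  induction n using Nat.strong_induction_on with
  | _ n ih =>
    intro U hc hU he
    rcases Nat.eq_zero_or_pos n with hn | hn
    · subst hn
      rw [Finset.card_eq_zero] at hc
      subst hc
      refine ⟨∅, Finset.empty_subset _, ?_, by simp⟩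
      rw [MG.bd_empty]
      funext v
      simp [ind]
    · have hn2 : 2 ≤ n := by
        obtain ⟨k, hk⟩ := he
        omega
      have hpair : ∃ a ∈ U, ∃ b ∈ U, a ≠ b ∧ nm (a - b) ≤ 2 * T ∧
          (M ^ d < n → M * nm (a - b) ≤ 2 * T) := by
        have hany : ∀ a ∈ U, ∀ b ∈ U, nm (a - b) ≤ 2 * T := by
          intro a ha b hb
          have h1 := mem_box.mp (hU ha)
          have h2 := mem_box.mp (hU hb)
          have := nm_sub_le a b
          omega
        by_cases hMn : M ^ d < n
        · obtain ⟨a, ha, b, hb, hab, h⟩ := close_pair d M T hM U hU (by rw [hc]; exact hMn)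
          exact ⟨a, ha, b, hb, hab, hany a ha b hb, fun _ => h⟩
        · obtain ⟨a, ha, b, hb, hab⟩ := Finset.one_lt_card.mp (by omega : 1 < U.card)
          exact ⟨a, ha, b, hb, hab, hany a ha b hb, fun h => absurd h hMn⟩
      obtain ⟨a, ha, b, hb, hab, h1, h2⟩ := hpair
      have hb' : b ∈ U.erase a := Finset.mem_erase.mpr ⟨hab.symm, hb⟩
      have hc' : ((U.erase a).erase b).card = n - 2 := by
        rw [Finset.card_erase_of_mem hb', Finset.card_erase_of_mem ha]
        omega
      obtain ⟨η', hη', hbd', hcard'⟩ := ih (n - 2) (by omega) ((U.erase a).erase b) hc'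
        (((Finset.erase_subset _ _).trans (Finset.erase_subset _ _)).trans hU)
        (by
          obtain ⟨k, hk⟩ := he
          exact ⟨k - 1, by omega⟩)
      obtain ⟨p, hp, hbdp, hcp⟩ := exists_path (mem_box.mp (hU ha)) (mem_box.mp (hU hb))
      refine ⟨η' ∆ p, ?_, ?_, ?_⟩
      · intro e he'
        rw [Finset.mem_symmDiff] at he'
        rcases he' with he' | he'
        · exact hη' he'.1
        · exact hp he'.1
      · rw [MG.bd_symmDiff, hbd', hbdp, ← ind_erase ha hb hab]
      · have hc3 : (η' ∆ p).card ≤ η'.card + p.card := by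
          refine (Finset.card_le_card ?_).trans (Finset.card_union_le η' p)
          intro e he'
          rw [Finset.mem_symmDiff] at he'
          rw [Finset.mem_union]
          rcases he' with he' | he'
          · exact Or.inl he'.1
          · exact Or.inr he'.1
        have hc4 : M * (η' ∆ p).card ≤ M * η'.card + M * (d * nm (a - b)) := by
          rw [← mul_add]
          exact Nat.mul_le_mul_left M (hc3.trans (by omega))
        refine hc4.trans ?_
        by_cases hMn : M ^ d < n
        · have h3 := h2 hMn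
          have h4 : M * (d * nm (a - b)) ≤ d * (2 * T) := by
            calc M * (d * nm (a - b)) = d * (M * nm (a - b)) := by ring
              _ ≤ d * (2 * T) := Nat.mul_le_mul_left d h3
          have h5 : min (n - 2) (M ^ d) ≤ min n (M ^ d) := by omega
          have h6 : M * (min (n - 2) (M ^ d) * d * T) ≤ M * (min n (M ^ d) * d * T) :=
            Nat.mul_le_mul_left M (Nat.mul_le_mul_right T (Nat.mul_le_mul_right d h5))
          have h7 : d * T * n = d * T * (n - 2) + d * (2 * T) := by
            obtain ⟨m, rfl⟩ := Nat.exists_eq_add_of_le hn2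
            rw [Nat.add_sub_cancel_left]
            ring
          omega
        · have h5 : min (n - 2) (M ^ d) = n - 2 := by omega
          have h6 : min n (M ^ d) = n := by omega
          rw [h5] at hcard'
          rw [h6]
          have h4 : M * (d * nm (a - b)) ≤ M * (d * (2 * T)) :=
            Nat.mul_le_mul_left M (Nat.mul_le_mul_left d h1)
          obtain ⟨m, rfl⟩ := Nat.exists_eq_add_of_le hn2
          rw [Nat.add_sub_cancel_left] at hcard'
          have h7 : M * ((2 + m) * d * T) = M * (m * d * T) + M * (d * (2 * T)) := by ring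
          have h8 : d * T * m ≤ d * T * (2 + m) := Nat.mul_le_mul_left _ (by omega)
          omega

theorem tj (d : ℕ) : S_TJ d := by
  intro δ hδ
  obtain ⟨M₀, hM₀⟩ := exists_nat_ge ((d : ℝ) / δ)
  set M := M₀ + 1 with hMdef
  have hM : 1 ≤ M := by omega
  have hMr : (0 : ℝ) < M := by exact_mod_cast hM
  have hMd : (d : ℝ) ≤ δ * M := by
    rw [div_le_iff₀ hδ] at hM₀
    have : (M : ℝ) = M₀ + 1 := by rw [hMdef]; push_cast; ring
    rw [this]
    nlinarith
  refine ⟨(M : ℝ) ^ d * d, by positivity, ?_⟩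
  intro T U hU he
  obtain ⟨η, hη, hbd, hc⟩ := tj_aux d M T hM U.card U rfl hU he
  refine ⟨η, hη, hbd, ?_⟩
  have h1 : (M : ℝ) * η.card ≤ d * T * U.card + M * ((M : ℝ) ^ d * d * T) := by
    have h2 : M * η.card ≤ d * T * U.card + M * (M ^ d * d * T) := by
      refine hc.trans ?_
      have : min U.card (M ^ d) ≤ M ^ d := min_le_right _ _
      exact Nat.add_le_add_left
        (Nat.mul_le_mul_left M (Nat.mul_le_mul_right T (Nat.mul_le_mul_right d this))) _
    exact_mod_cast h2
  have h3 : (d : ℝ) * T * U.card ≤ δ * M * T * U.card := by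
    have : (0 : ℝ) ≤ T * U.card := by positivity
    nlinarith
  have h4 : (M : ℝ) * η.card ≤ M * (δ * U.card * T + (M : ℝ) ^ d * d * T) := by
    calc (M : ℝ) * η.card ≤ d * T * U.card + M * ((M : ℝ) ^ d * d * T) := h1
      _ ≤ δ * M * T * U.card + M * ((M : ℝ) ^ d * d * T) := by linarith
      _ = _ := by ring
  exact le_of_mul_le_mul_left h4 hMr

end Pool.Agent.TH247.J470
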